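import Pool.Agent.Helper36_M1D.Stmts

/-! M1D, module SWELL: swelling of closed families of order at most two. -/

set_option autoImplicit false
open Set Topology Filter

namespace Pool.Agent.MD

lemma ncard_le_two_iff {k : ℕ} (s : Set (Fin k)) :
    s.ncard ≤ 2 ↔ ∀ a b c, a ∈ s → b ∈ s → c ∈ s → a ≠ b → a ≠ c → b ≠ c → False := by
  constructor
  · intro h a b c ha hb hc h1 h2 h3
    have : 2 < s.ncard := (Set.two_lt_ncard_iff s.toFinite).2 ⟨a, b, c, ha, hb, hc, h1, h2, h3⟩
    omega
  · intro h
    by_contra h2
    push Not at h2
    obtain ⟨a, b, c, ha, hb, hc, h1, h2, h3⟩ := (Set.two_lt_ncard_iff s.toFinite).1 h2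
    exact h a b c ha hb hc h1 h2 h3

theorem swell : SWELL := by
  intro Z _ _ k A U hA hU hAU hord
  have key : ∀ s : Finset (Fin k), ∃ B : Fin k → Set Z, (∀ i, IsClosed (B i)) ∧
      (∀ i, A i ⊆ B i) ∧ (∀ i, B i ⊆ U i) ∧ (∀ i ∈ s, A i ⊆ interior (B i)) ∧
      ∀ x, {i | x ∈ B i}.ncard ≤ 2 := by
    intro s
    induction s using Finset.induction_on with
    | empty => exact ⟨A, hA, fun _ => Subset.rfl, hAU, by simp, hord⟩
    | insert j s hj ih =>
      obtain ⟨B, hB, hAB, hBU, hs, hB2⟩ := ih
      set Kj : Set Z := ⋃ i : {p : Fin k × Fin k // p.1 ≠ p.2 ∧ p.1 ≠ j ∧ p.2 ≠ j},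
        B i.1.1 ∩ B i.1.2 with hKj
      have hKjc : IsClosed Kj := isClosed_iUnion_of_finite fun i => (hB _).inter (hB _)
      have hdis : B j ⊆ U j ∩ Kjᶜ := by
        intro x hx
        refine ⟨hBU j hx, ?_⟩
        intro hxK
        obtain ⟨⟨p, h1, h2, h3⟩, hx1, hx2⟩ := mem_iUnion.1 hxK
        exact (ncard_le_two_iff _).1 (hB2 x) p.1 p.2 j hx1 hx2 hx h1 h2 h3
      obtain ⟨O, hO, hBO, hOU⟩ := normal_exists_closure_subset (hB j)
        ((hU j).inter hKjc.isOpen_compl) hdis
      refine ⟨Function.update B j (closure O), ?_, ?_, ?_, ?_, ?_⟩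
      · intro i
        by_cases h : i = j
        · subst h; simp
        · simp [Function.update_of_ne h, hB i]
      · intro i
        by_cases h : i = j
        · subst h
          simp only [Function.update_self]
          exact (hAB i).trans (hBO.trans subset_closure)
        · simp only [Function.update_of_ne h]
          exact hAB i
      · intro i
        by_cases h : i = j
        · subst h
          simp only [Function.update_self]
          exact hOU.trans inter_subset_left
        · simp only [Function.update_of_ne h]
          exact hBU i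
      · intro i hi
        by_cases h : i = j
        · subst h
          simp only [Function.update_self]
          exact (hAB i).trans (hBO.trans (interior_maximal subset_closure hO))
        · simp only [Function.update_of_ne h]
          rcases Finset.mem_insert.1 hi with h1 | h1
          · exact absurd h1 h
          · exact hs i h1
      · intro x
        rw [ncard_le_two_iff]
        intro a b c ha hb hc h1 h2 h3
        have hmem : ∀ i, i ≠ j → (x ∈ Function.update B j (closure O) i ↔ x ∈ B i) := by
          intro i hi
          rw [Function.update_of_ne hi]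
        have hnK : x ∈ closure O → ∀ i l, i ≠ l → i ≠ j → l ≠ j → x ∈ B i → x ∈ B l → False := by
          intro hx i l h4 h5 h6 h7 h8
          exact (hOU hx).2 (mem_iUnion.2 ⟨⟨(i, l), h4, h5, h6⟩, h7, h8⟩)
        have ha' : x ∈ Function.update B j (closure O) a := ha
        have hb' : x ∈ Function.update B j (closure O) b := hb
        have hc' : x ∈ Function.update B j (closure O) c := hc
        by_cases haj : a = j
        · subst haj
          rw [Function.update_self] at ha'
          exact hnK ha' b c h3 h1.symm h2.symm ((hmem b h1.symm).1 hb') ((hmem c h2.symm).1 hc')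
        by_cases hbj : b = j
        · subst hbj
          rw [Function.update_self] at hb'
          exact hnK hb' a c h2 haj h3.symm ((hmem a haj).1 ha') ((hmem c h3.symm).1 hc')
        by_cases hcj : c = j
        · subst hcj
          rw [Function.update_self] at hc'
          exact hnK hc' a b h1 haj hbj ((hmem a haj).1 ha') ((hmem b hbj).1 hb')
        exact (ncard_le_two_iff _).1 (hB2 x) a b c ((hmem a haj).1 ha') ((hmem b hbj).1 hb')
          ((hmem c hcj).1 hc') h1 h2 h3
  obtain ⟨B, hB, hAB, hBU, hs, hB2⟩ := key Finset.univ
  refine ⟨fun i => interior (B i), fun i => isOpen_interior, fun i => hs i (Finset.mem_univ i),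
    fun i => ?_, fun x => ?_⟩
  · exact (closure_minimal interior_subset (hB i)).trans (hBU i)
  · refine (Set.ncard_le_ncard ?_ (Set.toFinite _)).trans (hB2 x)
    intro i hi
    have hi' : x ∈ interior (B i) := hi
    have hi2 : x ∈ B i := interior_subset hi'
    exact hi2

end Pool.Agent.MD
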