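import Pool.Agent.Helper36_M1D.Stmts

/-! M1D, module TD: thin compact sets embed in the Cantor space. -/

set_option autoImplicit false
open Set Topology Filter

namespace Pool.Agent.MD

lemma exists_inducing_cant (Y : Type) [TopologicalSpace Y] [CompactSpace Y] [T2Space Y]
    [TotallyDisconnectedSpace Y] [SecondCountableTopology Y] :
    ∃ h : Y → Cant, IsInducing h := by
  classical
  have hc : Countable (TopologicalSpace.Clopens Y) :=
    TopologicalSpace.Clopens.countable_iff_secondCountable.2 inferInstance
  obtain ⟨e, he⟩ := exists_surjective_nat (TopologicalSpace.Clopens Y)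
  let h : Y → Cant := fun x n => decide (x ∈ e n)
  have hcont : Continuous h := by
    refine continuous_pi fun n => ?_
    refine (IsLocallyConstant.continuous ?_)
    rw [IsLocallyConstant.iff_isOpen_fiber]
    intro b
    cases b
    · have : (fun x => decide (x ∈ e n)) ⁻¹' {false} = ((e n : Set Y))ᶜ := by
        ext x; simp
      change IsOpen ((fun x => decide (x ∈ e n)) ⁻¹' {false})
      rw [this]
      exact (e n).isClopen.compl.isOpen
    · have : (fun x => decide (x ∈ e n)) ⁻¹' {true} = ((e n : Set Y)) := by
        ext x; simp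
      change IsOpen ((fun x => decide (x ∈ e n)) ⁻¹' {true})
      rw [this]
      exact (e n).isClopen.isOpen
  have hinj : Function.Injective h := by
    intro x y hxy
    by_contra hne
    obtain ⟨U, hU, hx, hy⟩ := exists_isClopen_of_totally_separated hne
    obtain ⟨n, hn⟩ := he ⟨U, hU⟩
    have h1 := congrFun hxy n
    have h2 : x ∈ e n := by rw [hn]; exact hx
    have h3 : y ∉ e n := by rw [hn]; exact hy
    simp only [h] at h1
    rw [decide_eq_true h2, decide_eq_false h3] at h1
    exact absurd h1 (by simp)
  exact ⟨h, (hcont.isClosedEmbedding hinj).isInducing⟩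

theorem td : TD := by
  intro K hK hthin
  have : CompactSpace K := isCompact_iff_compactSpace.1 hK.isCompact
  have : TotallyDisconnectedSpace K := by
    constructor
    intro S _ hS x hx y hy
    have h1 : IsPreconnected ((fun p : K => p.1.2) '' S) :=
      hS.image _ (continuous_snd.comp continuous_subtype_val).continuousOn
    have hsnd : x.1.2 = y.1.2 := h1.subsingleton ⟨x, hx, rfl⟩ ⟨y, hy, rfl⟩
    have hsnd' : ∀ z ∈ S, z.1.2 = x.1.2 := fun z hz => h1.subsingleton ⟨z, hz, rfl⟩ ⟨x, hx, rfl⟩
    have h2 : IsPreconnected ((fun p : K => p.1.1) '' S) :=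
      hS.image _ (continuous_fst.comp continuous_subtype_val).continuousOn
    have hsub : (fun p : K => p.1.1) '' S ⊆ {r : unitInterval | (r, x.1.2) ∈ K} := by
      rintro _ ⟨z, hz, rfl⟩
      have := z.2
      rw [← hsnd' z hz]
      exact this
    have hfst : x.1.1 = y.1.1 := by
      by_contra hne
      have aux : ∀ a b : unitInterval, a ∈ (fun p : K => p.1.1) '' S →
          b ∈ (fun p : K => p.1.1) '' S → a < b → False := by
        intro a b ha hb hab
        have h3 : Icc a b ⊆ (fun p : K => p.1.1) '' S := h2.Icc_subset ha hb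
        obtain ⟨c, hc1, hc2⟩ := exists_between hab
        have h4 : c ∈ interior {r : unitInterval | (r, x.1.2) ∈ K} := by
          rw [mem_interior]
          exact ⟨Ioo a b, (Ioo_subset_Icc_self.trans h3).trans hsub, isOpen_Ioo, hc1, hc2⟩
        rw [hthin] at h4
        exact h4
      rcases lt_or_gt_of_ne hne with h | h
      · exact aux _ _ ⟨x, hx, rfl⟩ ⟨y, hy, rfl⟩ h
      · exact aux _ _ ⟨y, hy, rfl⟩ ⟨x, hx, rfl⟩ h
    exact Subtype.ext (Prod.ext hfst hsnd)
  exact exists_inducing_cant K

end Pool.Agent.MD
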