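import Pool.Agent.Helper36_M1D.Stmts

/-! M1D, module ZDIM. -/

set_option autoImplicit false
open Set Topology Filter

namespace Pool.Agent.MD

theorem zdim (hFK : FK) (hTAU : TAU) (hSUM : SUM) (hK : PIECEK) (hM : PIECEM) : ZDIM := by
  intro B hBc hBcl
  set D : Data MM B := DD.restrict B with hD
  have : Countable B := hBc.to_subtype
  have : NormalSpace D.TX := hTAU.normal MM B D
  have hg : ∀ (g : B) (p : MM), p ∈ D.K g → gg p = g := by
    intro g p hp
    have hp1 : ddist (KK g.1) p = 0 := hp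
    rw [ddist_eq_zero (KK_closed _)] at hp1
    exact hp1.2.2
  have hopen : IsOpen {p : MM | gg p ∉ B} := hBcl.isOpen_compl.preimage continuous_gg
  obtain ⟨F, hFc, hF, hFU, -⟩ := hopen.exists_iUnion_isClosed
  let P : B ⊕ (B × ℕ) ⊕ ℕ → Set MM := fun i => match i with
    | Sum.inl b => D.K b
    | Sum.inr (Sum.inl (b, j)) => {p | gg p = b.1 ∧ (1 : ℝ) / (j + 1) ≤ D.dl b p}
    | Sum.inr (Sum.inr n) => F n
  have hPcl : ∀ i, IsClosed (P i) := by
    rintro (b | ⟨b, j⟩ | n)
    · exact hFK.K_closed MM B D b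
    · exact (isClosed_eq continuous_gg continuous_const).inter
        (isClosed_le continuous_const (hFK.dl_cont MM B D b))
    · exact hFc n
  refine hSUM D.TX (B ⊕ (B × ℕ) ⊕ ℕ) (fun i => D.toM ⁻¹' (P i))
    (fun i => (hPcl i).preimage (hTAU.cont_toM MM B D)) ?_ ?_
  · rw [eq_univ_iff_forall]
    intro x
    have hx : ∃ i, D.toM x ∈ P i := by
      by_cases h : gg (D.toM x) ∈ B
      · by_cases h0 : D.dl ⟨_, h⟩ (D.toM x) = 0
        · exact ⟨Sum.inl ⟨_, h⟩, h0⟩
        · have hpos : 0 < D.dl ⟨_, h⟩ (D.toM x) :=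
            lt_of_le_of_ne (D.dl_nonneg _ _) (Ne.symm h0)
          obtain ⟨j, hj⟩ := exists_nat_one_div_lt hpos
          exact ⟨Sum.inr (Sum.inl (⟨_, h⟩, j)), rfl, hj.le⟩
      · have : D.toM x ∈ ⋃ n, F n := by rw [hFU]; exact h
        obtain ⟨n, hn⟩ := mem_iUnion.1 this
        exact ⟨Sum.inr (Sum.inr n), hn⟩
    obtain ⟨i, hi⟩ := hx
    exact mem_iUnion.2 ⟨i, hi⟩
  · rintro (b | ⟨b, j⟩ | n)
    · exact hK B b
    · refine hM B D (P (Sum.inr (Sum.inl (b, j)))) (hPcl (Sum.inr (Sum.inl (b, j)))) ?_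
      intro g
      rw [Set.disjoint_left]
      rintro p ⟨h1, h2⟩ h3
      have h4 := hg g p h3
      have h5 : b = g := Subtype.ext (h1.symm.trans h4)
      subst h5
      have h6 : D.dl b p = 0 := h3
      rw [h6] at h2
      have : (0 : ℝ) < 1 / ((j : ℝ) + 1) := by positivity
      linarith
    · refine hM B D (P (Sum.inr (Sum.inr n))) (hPcl (Sum.inr (Sum.inr n))) ?_
      intro g
      rw [Set.disjoint_left]
      intro p h1 h3
      have h4 := hg g p h3
      have h5 : p ∈ {p : MM | gg p ∉ B} := by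
        rw [← hFU]; exact mem_iUnion.2 ⟨n, h1⟩
      have h6 : gg p ∉ B := h5
      rw [h4] at h6
      exact h6 g.2

end Pool.Agent.MD
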